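import Pool.Agent.Helper80.EC_F.Goals2
import Pool.Agent.Helper86.EC_F.SUMT

/-! Packet DIFM of MP_ecc237 Part F (helper80). -/

set_option autoImplicit false

open MeasureTheory Filter Topology Set

namespace EC237.PF.PkDIFM

open EC237.PF.PkSUMT

/-- the dominating family -/
noncomputable def dom (A c : ℝ) (p : ℕ × ℕ) : ℝ :=
  A * ((((p.1:ℝ) + 1) * ((p.2:ℝ) + 1)) ^ 6 *
      Real.exp (-(c * (((p.1:ℝ) + 1) * ((p.2:ℝ) + 1)))))

theorem summable_dom (A c : ℝ) (hA : 0 ≤ A) (hc : 0 < c) : Summable (dom A c) := by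
  refine summable_of_bound _ A c hc ?_
  intro p
  unfold dom
  rw [abs_of_nonneg (by positivity)]

/-- differentiation of a series of functions with locally dominated derivatives -/
theorem diff_tsum (f f' : ℝ → ℕ × ℕ → ℝ) (y : ℝ) (hy : 0 < y) (A c : ℝ) (hA : 0 ≤ A) (hc : 0 < c)
    (h0 : Summable (f y))
    (h1 : ∀ p z, z ∈ Ioo (y / 2) (2 * y) → HasDerivAt (fun x => f x p) (f' z p) z)
    (h2 : ∀ p z, z ∈ Ioo (y / 2) (2 * y) → |f' z p| ≤ dom A c p) :
    DifferentiableAt ℝ (fun x => ∑' p, f x p) y := by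
  have hmem : y ∈ Ioo (y / 2) (2 * y) := ⟨by linarith, by linarith⟩
  have := hasDerivAt_tsum_of_isPreconnected (𝕜 := ℝ) (g := fun p x => f x p)
    (g' := fun p z => f' z p) (u := dom A c) (t := Ioo (y / 2) (2 * y)) (y₀ := y) (y := y)
    (summable_dom A c hA hc) isOpen_Ioo isPreconnected_Ioo h1
    (fun p z hz => by rw [Real.norm_eq_abs]; exact h2 p z hz) hmem h0 hmem
  exact this.differentiableAt

/-- derivative of the term of `M_0^e` -/
noncomputable def dM0 (y : ℝ) (p : ℕ × ℕ) : ℝ :=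
  Real.pi ^ 2 / 9 * (sn p * (((p.1:ℝ) + 1) / ((p.2:ℝ) + 1))) *
    ((-(1 / y ^ 2) + Real.pi * ((p.1:ℝ) + 1) * ((p.2:ℝ) + 1) / 3 / y ^ 3) *
    Real.exp (-(Real.pi * ((p.1:ℝ) + 1) * ((p.2:ℝ) + 1) / (3 * y))))

theorem hasDeriv_tM0 (p : ℕ × ℕ) (z : ℝ) (hz : 0 < z) :
    HasDerivAt (fun x => tM0 x p) (dM0 z p) z := by
  set M : ℝ := (p.1:ℝ) + 1 with hMd
  set N : ℝ := (p.2:ℝ) + 1 with hNd
  have hfun : ∀ x : ℝ, tM0 x p = Real.pi ^ 2 / 9 * (sn p * (M / N)) *
      (x⁻¹ * Real.exp (-(Real.pi * M * N / 3) * x⁻¹)) := by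
    intro x
    unfold tM0
    rw [← hMd, ← hNd]
    have e1 : -(Real.pi * M * N / (3 * x)) = -(Real.pi * M * N / 3) * x⁻¹ := by
      rw [div_mul_eq_div_div, div_eq_mul_inv _ x]; ring
    rw [e1, div_mul_eq_div_div, div_eq_mul_inv _ x]
    ring
  have hinv : HasDerivAt (fun x : ℝ => x⁻¹) (-(z ^ 2)⁻¹) z := hasDerivAt_inv hz.ne'
  have hexp : HasDerivAt (fun x : ℝ => Real.exp (-(Real.pi * M * N / 3) * x⁻¹))
      (Real.exp (-(Real.pi * M * N / 3) * z⁻¹) * (-(Real.pi * M * N / 3) * -(z ^ 2)⁻¹)) z :=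
    (hinv.const_mul _).exp
  have hall := (hinv.mul hexp).const_mul (Real.pi ^ 2 / 9 * (sn p * (M / N)))
  have hcongr : (fun x => tM0 x p) = fun x => Real.pi ^ 2 / 9 * (sn p * (M / N)) *
      (((fun x : ℝ => x⁻¹) * fun x : ℝ => Real.exp (-(Real.pi * M * N / 3) * x⁻¹)) x) := by
    funext x
    rw [hfun x]
    rfl
  rw [hcongr]
  have hval : dM0 z p = Real.pi ^ 2 / 9 * (sn p * (M / N)) *
      (-(z ^ 2)⁻¹ * Real.exp (-(Real.pi * M * N / 3) * z⁻¹) +
      z⁻¹ * (Real.exp (-(Real.pi * M * N / 3) * z⁻¹) *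
        (-(Real.pi * M * N / 3) * -(z ^ 2)⁻¹))) := by
    unfold dM0
    rw [← hMd, ← hNd]
    have e1 : -(Real.pi * M * N / (3 * z)) = -(Real.pi * M * N / 3) * z⁻¹ := by
      rw [div_mul_eq_div_div, div_eq_mul_inv _ z]; ring
    rw [e1]
    have hz0 : z ≠ 0 := ne_of_gt hz
    field_simp
  rw [hval]
  exact hall

/-- derivative of the term of `M_2^s` -/
noncomputable def dM2 (y : ℝ) (r : ℕ × ℕ) : ℝ :=
  -(Real.pi ^ 3 / 4) * (chi ((r.1:ℤ) + 1) * (((r.2:ℝ) + 1) ^ 2 / ((r.1:ℝ) + 1) ^ 2) *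
    sgn2 r) * ((-(1 / y ^ 2) - Real.pi * ((r.1:ℝ) + 1) * ((r.2:ℝ) + 1) * (1 / y +
      Real.pi * ((r.1:ℝ) + 1) * ((r.2:ℝ) + 1))) * QQ y r)

theorem hasDeriv_tM2 (r : ℕ × ℕ) (z : ℝ) (hz : 0 < z) :
    HasDerivAt (fun x => tM2 x r) (dM2 z r) z := by
  set M : ℝ := (r.1:ℝ) + 1 with hMd
  set N : ℝ := (r.2:ℝ) + 1 with hNd
  set K : ℝ := -(Real.pi ^ 3 / 4) * (chi ((r.1:ℤ) + 1) * (N ^ 2 / M ^ 2) * sgn2 r) with hK
  have hinv : HasDerivAt (fun x : ℝ => x⁻¹ + Real.pi * M * N) (-(z ^ 2)⁻¹) z :=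
    (hasDerivAt_inv hz.ne').add_const _
  have hexp : HasDerivAt (fun x : ℝ => Real.exp (-(Real.pi * M * N) * x))
      (Real.exp (-(Real.pi * M * N) * z) * (-(Real.pi * M * N) * 1)) z :=
    ((hasDerivAt_id z).const_mul _).exp
  have hall := (hinv.mul hexp).const_mul K
  have hcongr : (fun x => tM2 x r) =ᶠ[𝓝 z] fun x => K *
      (((fun x : ℝ => x⁻¹ + Real.pi * M * N) *
        fun x : ℝ => Real.exp (-(Real.pi * M * N) * x)) x) := by
    filter_upwards [lt_mem_nhds hz] with x hx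
    simp only [Pi.mul_apply]
    unfold tM2 QQ
    rw [← hMd, ← hNd, hK]
    have e1 : -(Real.pi * M * N * x) = -(Real.pi * M * N) * x := by ring
    rw [e1]
    have hx0 : x ≠ 0 := ne_of_gt hx
    field_simp
  refine HasDerivAt.congr_of_eventuallyEq ?_ hcongr
  have hval : dM2 z r = K * (-(z ^ 2)⁻¹ * Real.exp (-(Real.pi * M * N) * z) +
      (z⁻¹ + Real.pi * M * N) * (Real.exp (-(Real.pi * M * N) * z) *
        (-(Real.pi * M * N) * 1))) := by
    unfold dM2 QQ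
    rw [← hMd, ← hNd, hK]
    have e1 : -(Real.pi * M * N * z) = -(Real.pi * M * N) * z := by ring
    rw [e1]
    have hz0 : z ≠ 0 := ne_of_gt hz
    field_simp
    ring
  rw [hval]
  exact hall

theorem diffM0e (y : ℝ) (hy : 0 < y) : DifferentiableAt ℝ M0e y := by
  have h := diff_tsum tM0 dM0 y hy (Real.pi ^ 2 / 9 * (4 / y ^ 2 + Real.pi / 3 * (8 / y ^ 3)))
    (Real.pi / (6 * y)) (by positivity) (by positivity) (sum_tM0 y hy)
    (fun p z hz => hasDeriv_tM0 p z (by linarith [hz.1])) ?_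
  · exact h
  intro p z hz
  have hz0 : 0 < z := by linarith [hz.1]
  obtain ⟨hM, hN⟩ := one_le_X p
  unfold dM0 dom
  set M : ℝ := (p.1:ℝ) + 1 with hMd
  set N : ℝ := (p.2:ℝ) + 1 with hNd
  have hMN : 1 ≤ M * N := by nlinarith
  have hexp : Real.exp (-(Real.pi * M * N / (3 * z))) ≤
      Real.exp (-(Real.pi / (6 * y) * (M * N))) := by
    apply Real.exp_le_exp.2
    have e1 : Real.pi / (6 * y) * (M * N) = Real.pi * M * N * (1 / (6 * y)) := by ring
    have e2 : Real.pi * M * N / (3 * z) = Real.pi * M * N * (1 / (3 * z)) := by ring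
    rw [e1, e2]
    apply neg_le_neg
    apply mul_le_mul_of_nonneg_left _ (by positivity)
    apply one_div_le_one_div_of_le (by positivity)
    linarith [hz.2]
  have hinv2 : 1 / z ^ 2 ≤ 4 / y ^ 2 := by
    rw [div_le_div_iff₀ (by positivity) (by positivity)]
    nlinarith [hz.1]
  have hinv3 : 1 / z ^ 3 ≤ 8 / y ^ 3 := by
    rw [div_le_div_iff₀ (by positivity) (by positivity)]
    have : (y / 2) ^ 3 ≤ z ^ 3 := pow_le_pow_left₀ (by positivity) hz.1.le 3
    nlinarith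
  have hsn : |sn p * (M / N)| ≤ M * N := by
    rw [abs_mul]
    calc |sn p| * |M / N| ≤ 1 * (M / N) := by
          rw [abs_of_pos (show 0 < M / N by positivity)]
          exact mul_le_mul_of_nonneg_right (abs_sn p) (by positivity)
      _ ≤ M := by rw [one_mul]; exact div_le_self (by linarith) hN
      _ ≤ M * N := le_mul_of_one_le_right (by linarith) hN
  have hmid : |-(1 / z ^ 2) + Real.pi * M * N / 3 / z ^ 3| ≤
      (4 / y ^ 2 + Real.pi / 3 * (8 / y ^ 3)) * (M * N) := by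
    refine (abs_add_le _ _).trans ?_
    rw [abs_neg, abs_of_pos (show 0 < 1 / z ^ 2 by positivity),
      abs_of_pos (show 0 < Real.pi * M * N / 3 / z ^ 3 by positivity)]
    have e1 : Real.pi * M * N / 3 / z ^ 3 = Real.pi / 3 * (1 / z ^ 3) * (M * N) := by ring
    rw [e1]
    have h1 : 1 / z ^ 2 ≤ 4 / y ^ 2 * (M * N) :=
      hinv2.trans (le_mul_of_one_le_right (by positivity) hMN)
    have h2 : Real.pi / 3 * (1 / z ^ 3) * (M * N) ≤ Real.pi / 3 * (8 / y ^ 3) * (M * N) := by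
      apply mul_le_mul_of_nonneg_right _ (by positivity)
      exact mul_le_mul_of_nonneg_left hinv3 (by positivity)
    calc _ ≤ 4 / y ^ 2 * (M * N) + Real.pi / 3 * (8 / y ^ 3) * (M * N) := add_le_add h1 h2
      _ = _ := by ring
  rw [abs_mul, abs_mul (Real.pi ^ 2 / 9), abs_mul _ (Real.exp _), abs_of_pos (Real.exp_pos _),
    abs_of_pos (show 0 < Real.pi ^ 2 / 9 by positivity)]
  have hpow : (M * N) ^ 2 ≤ (M * N) ^ 6 := pow_le_pow_right₀ hMN (by norm_num)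
  calc Real.pi ^ 2 / 9 * |sn p * (M / N)| * (|-(1 / z ^ 2) + Real.pi * M * N / 3 / z ^ 3| *
        Real.exp (-(Real.pi * M * N / (3 * z))))
      ≤ Real.pi ^ 2 / 9 * (M * N) * (((4 / y ^ 2 + Real.pi / 3 * (8 / y ^ 3)) * (M * N)) *
        Real.exp (-(Real.pi / (6 * y) * (M * N)))) := by gcongr
    _ = Real.pi ^ 2 / 9 * (4 / y ^ 2 + Real.pi / 3 * (8 / y ^ 3)) * ((M * N) ^ 2 *
        Real.exp (-(Real.pi / (6 * y) * (M * N)))) := by ring
    _ ≤ _ := by gcongr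

theorem diffM2s (y : ℝ) (hy : 0 < y) : DifferentiableAt ℝ M2s y := by
  have h := diff_tsum tM2 dM2 y hy (Real.pi ^ 3 / 4 * (4 / y ^ 2 + Real.pi * (2 / y + Real.pi)))
    (Real.pi * y / 2) (by positivity) (by positivity) (sum_tM2 y hy)
    (fun p z hz => hasDeriv_tM2 p z (by linarith [hz.1])) ?_
  · exact h
  intro p z hz
  have hz0 : 0 < z := by linarith [hz.1]
  obtain ⟨hM, hN⟩ := one_le_X p
  unfold dM2 dom QQ
  set M : ℝ := (p.1:ℝ) + 1 with hMd
  set N : ℝ := (p.2:ℝ) + 1 with hNd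
  have hMN : 1 ≤ M * N := by nlinarith
  have hexp : Real.exp (-(Real.pi * M * N * z)) ≤
      Real.exp (-(Real.pi * y / 2 * (M * N))) := by
    apply Real.exp_le_exp.2
    have e1 : Real.pi * y / 2 * (M * N) = Real.pi * M * N * (y / 2) := by ring
    rw [e1]
    apply neg_le_neg
    exact mul_le_mul_of_nonneg_left hz.1.le (by positivity)
  have hinv1 : 1 / z ≤ 2 / y := by
    rw [div_le_div_iff₀ (by positivity) (by positivity)]
    nlinarith [hz.1]
  have hinv2 : 1 / z ^ 2 ≤ 4 / y ^ 2 := by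
    rw [div_le_div_iff₀ (by positivity) (by positivity)]
    nlinarith [hz.1]
  have hsn : |chi ((p.1:ℤ) + 1) * (N ^ 2 / M ^ 2) * sgn2 p| ≤ (M * N) ^ 2 := by
    rw [abs_mul, abs_mul, abs_sgn2, mul_one]
    calc |chi ((p.1:ℤ) + 1)| * |N ^ 2 / M ^ 2| ≤ 1 * (N ^ 2 / M ^ 2) := by
          rw [abs_of_pos (show 0 < N ^ 2 / M ^ 2 by positivity)]
          exact mul_le_mul_of_nonneg_right (abs_chi _) (by positivity)
      _ ≤ N ^ 2 := by rw [one_mul]; exact div_le_self (by positivity) (one_le_pow₀ hM)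
      _ ≤ (M * N) ^ 2 :=
        pow_le_pow_left₀ (by linarith) (le_mul_of_one_le_left (by linarith) hM) 2
  have hmid : |-(1 / z ^ 2) - Real.pi * M * N * (1 / z + Real.pi * M * N)| ≤
      (4 / y ^ 2 + Real.pi * (2 / y + Real.pi)) * (M * N) ^ 2 := by
    have e0 : -(1 / z ^ 2) - Real.pi * M * N * (1 / z + Real.pi * M * N) =
      -(1 / z ^ 2 + Real.pi * M * N * (1 / z + Real.pi * M * N)) := by ring
    rw [e0, abs_neg, abs_of_pos (by positivity)]
    have hMN2 : 1 ≤ (M * N) ^ 2 := one_le_pow₀ hMN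
    have h1 : 1 / z ^ 2 ≤ 4 / y ^ 2 * (M * N) ^ 2 :=
      hinv2.trans (le_mul_of_one_le_right (by positivity) hMN2)
    have h3 : 1 / z + Real.pi * M * N ≤ (2 / y + Real.pi) * (M * N) := by
      have h4 : 1 / z ≤ 2 / y * (M * N) :=
        hinv1.trans (le_mul_of_one_le_right (by positivity) hMN)
      calc _ ≤ 2 / y * (M * N) + Real.pi * M * N := by linarith
        _ = _ := by ring
    have h2 : Real.pi * M * N * (1 / z + Real.pi * M * N) ≤
        Real.pi * M * N * ((2 / y + Real.pi) * (M * N)) :=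
      mul_le_mul_of_nonneg_left h3 (by positivity)
    calc _ ≤ 4 / y ^ 2 * (M * N) ^ 2 + Real.pi * M * N * ((2 / y + Real.pi) * (M * N)) :=
          add_le_add h1 h2
      _ = _ := by ring
  rw [abs_mul, abs_mul (-(Real.pi ^ 3 / 4)), abs_mul _ (Real.exp _), abs_of_pos (Real.exp_pos _),
    abs_neg, abs_of_pos (show 0 < Real.pi ^ 3 / 4 by positivity)]
  have hpow : (M * N) ^ 4 ≤ (M * N) ^ 6 := pow_le_pow_right₀ hMN (by norm_num)
  calc Real.pi ^ 3 / 4 * |chi ((p.1:ℤ) + 1) * (N ^ 2 / M ^ 2) * sgn2 p| *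
        (|-(1 / z ^ 2) - Real.pi * M * N * (1 / z + Real.pi * M * N)| *
        Real.exp (-(Real.pi * M * N * z)))
      ≤ Real.pi ^ 3 / 4 * (M * N) ^ 2 *
        (((4 / y ^ 2 + Real.pi * (2 / y + Real.pi)) * (M * N) ^ 2) *
        Real.exp (-(Real.pi * y / 2 * (M * N)))) := by gcongr
    _ = Real.pi ^ 3 / 4 * (4 / y ^ 2 + Real.pi * (2 / y + Real.pi)) * ((M * N) ^ 4 *
        Real.exp (-(Real.pi * y / 2 * (M * N)))) := by ring
    _ ≤ _ := by gcongr

theorem thm (h1 : G_M0E) (h2 : G_M2Q) : EC237.PF.G_DIFM := by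
  intro y hy
  constructor
  · have he : M0 =ᶠ[𝓝 y] fun y => Real.sqrt 3 * Real.pi ^ 3 / 54 / y ^ 2 + M0e y := by
      filter_upwards [lt_mem_nhds hy] with x hx
      exact h1 x hx
    refine DifferentiableAt.congr_of_eventuallyEq ?_ he
    refine DifferentiableAt.add ?_ (diffM0e y hy)
    exact (differentiableAt_const _).div (differentiableAt_id.pow 2) (by positivity)
  · have he : M2 =ᶠ[𝓝 y] M2s := by
      filter_upwards [lt_mem_nhds hy] with x hx
      exact h2 x hx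
    exact DifferentiableAt.congr_of_eventuallyEq (diffM2s y hy) he

end EC237.PF.PkDIFM
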